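import Mathlib

/-!
# Splittings of groups, strong accessibility, and the process seen from a subgroup

Definitions only. Splittings are given by their Bass-Serre trees.
-/

namespace Pool.Agent.Helper21.SG

open MulAction

/-- `G` is finite or virtually infinite cyclic. -/
def FinVZ (G : Type) [Group G] : Prop :=
  Finite G ∨ ∃ t : G, orderOf t = 0 ∧ (Subgroup.zpowers t).FiniteIndex

/-- `G` is finite. -/
def FinC (G : Type) [Group G] : Prop := Finite G

/-- A splitting of `G` over the class `C` of groups, given by its Bass-Serre tree: an action of `G`
on a tree without inversions, with finitely many orbits of edges, edge stabilisers in `C` and no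
global fixed vertex. The vertex groups are the stabilisers of the vertices. -/
structure Splitting (C : ∀ G : Type, Group G → Prop) (G : Type) [Group G] where
  /-- the vertices of the tree -/
  V : Type
  [act : MulAction G V]
  /-- the tree -/
  T : SimpleGraph V
  tree : T.IsTree
  adj : ∀ (g : G) (u v : V), T.Adj u v → T.Adj (g • u) (g • v)
  noinv : ∀ (g : G) (u v : V), T.Adj u v → ¬ (g • u = v ∧ g • v = u)
  fin : ∃ F : Set (V × V), F.Finite ∧ ∀ u v, T.Adj u v → ∃ g : G, (g • u, g • v) ∈ F
  edge : ∀ u v, T.Adj u v → C ↥(stabilizer G u ⊓ stabilizer G v) (Subgroup.toGroup _)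
  nofix : ∀ v : V, ∃ g : G, g • v ≠ v

attribute [instance] Splitting.act

/-- `G` has a splitting over `C`. -/
def Splits (C : ∀ G : Type, Group G → Prop) (G : Type) [Group G] : Prop := Nonempty (Splitting C G)

/-- The process of iterated splittings over `C` starting with `G` can be stopped after at most `n`
stages, and then ends with the collection `A` of subgroups of `G`: either `G` does not split and
`A = {G}`, or there is a splitting and a set `R` of representatives of the orbits of vertices such
that the process stops after at most `n - 1` stages for the stabilisers of the vertices in `R`, and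
`A` is the union of the resulting collections. -/
inductive StopsAt (C : ∀ G : Type, Group G → Prop) :
    ℕ → ∀ (G : Type) [Group G], Set (Subgroup G) → Prop
  | stop (n : ℕ) (G : Type) [Group G] (h : ¬ Splits C G) : StopsAt C n G {⊤}
  | split (n : ℕ) (G : Type) [Group G] (S : Splitting C G) (R : Set S.V)
      (B : ∀ v : S.V, Set (Subgroup (stabilizer G v)))
      (hR : ∀ v : S.V, ∃! r, r ∈ R ∧ ∃ g : G, g • v = r)
      (h : ∀ v ∈ R, StopsAt C n (stabilizer G v) (B v)) :
      StopsAt C (n + 1) G {K | ∃ v ∈ R, ∃ L ∈ B v, K = L.map (stabilizer G v).subtype}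

/-- `G` is strongly accessible over `C`. -/
def StronglyAccessible (C : ∀ G : Type, Group G → Prop) (G : Type) [Group G] : Prop :=
  ∃ n A, StopsAt C n G A

/-- Virtually free: `G` is finite or acts on a tree with finite vertex stabilisers. -/
def VFree (G : Type) [Group G] : Prop :=
  Finite G ∨ ∃ S : Splitting FinC G, ∀ v : S.V, Finite (stabilizer G v)

/-- The action of the subgroup `L` of `H` on the tree of the splitting `S` of `H`: it has no fixed
vertex, all its edge stabilisers are finite and `L` is not virtually free, or some edge with finite
stabiliser joins two vertices with infinite stabilisers. -/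
def ActsOverFinite {H : Type} [Group H] (S : Splitting FinVZ H) (L : Subgroup H) : Prop :=
  ((∀ v : S.V, ∃ l ∈ L, l • v ≠ v) ∧
    (∀ u v, S.T.Adj u v → Finite ↥(L ⊓ (stabilizer H u ⊓ stabilizer H v))) ∧ ¬ VFree L) ∨
    ∃ u v, S.T.Adj u v ∧ Finite ↥(L ⊓ (stabilizer H u ⊓ stabilizer H v)) ∧
      Infinite ↥(L ⊓ stabilizer H u) ∧ Infinite ↥(L ⊓ stabilizer H v)

/-- The subgroup of the elements `h` of `H` with `f h` in `g K g⁻¹`. -/
def trace {G H : Type} [Group G] [Group H] (K : Subgroup G) (f : H →* G) (g : G) : Subgroup H :=
  K.comap ((MulAut.conj g⁻¹).toMonoidHom.comp f)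

/-- For some `g` the intersection of `g K g⁻¹` and `H` (a subgroup of `G` by `f`) acts on the tree
of `S` as in `ActsOverFinite`. -/
def Sees {G H : Type} [Group G] [Group H] (K : Subgroup G) (f : H →* G)
    (S : Splitting FinVZ H) : Prop := ∃ g : G, ActsOverFinite S (trace K f g)

open Classical in
/-- A run of the process of iterated splittings from the group `H`, a subgroup of `G` by `f`, in
which `k` of the chosen splittings satisfy `Sees K`: either nothing is done with `H`, or a splitting
`S` is chosen, and then there are runs from the stabilisers of the vertices in a set `R` of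
representatives of the orbits of vertices. -/
inductive RunSeen {G : Type} [Group G] (K : Subgroup G) :
    ∀ (H : Type) [Group H], (H →* G) → ℕ → Prop
  | stop (H : Type) [Group H] (f : H →* G) : RunSeen K H f 0
  | split (H : Type) [Group H] (f : H →* G) (S : Splitting FinVZ H) (R : Finset S.V) (κ : S.V → ℕ)
      (hR : ∀ v : S.V, ∃! r, r ∈ R ∧ ∃ g : H, g • v = r)
      (h : ∀ v ∈ R, RunSeen K (stabilizer H v) (f.comp (stabilizer H v).subtype) (κ v)) :
      RunSeen K H f ((∑ v ∈ R, κ v) + if Sees K f S then 1 else 0)

/-- `H` is an iterated vertex group of `G`, and `f` is its inclusion. -/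
inductive Iter (G : Type) [Group G] : ∀ (H : Type) [Group H], (H →* G) → Prop
  | refl : Iter G G (MonoidHom.id G)
  | step (H : Type) [Group H] (f : H →* G) (S : Splitting FinVZ H) (v : S.V) (h : Iter G H f) :
      Iter G (stabilizer H v) (f.comp (stabilizer H v).subtype)

/-- the centraliser of an element -/
abbrev cen {G : Type} [Group G] (r : G) : Subgroup G := Subgroup.centralizer {r}

/-- For some element `r` of finite order and some edge of the tree of the splitting `S`, the
centraliser of `r` meets the edge group in a finite group, and each of the two vertex groups at this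
edge in an infinite group. -/
def CenSplits {G : Type} [Group G] (S : Splitting FinVZ G) : Prop :=
  ∃ (r : G) (u v : S.V), IsOfFinOrder r ∧ S.T.Adj u v ∧
    Finite ↥(cen r ⊓ (stabilizer G u ⊓ stabilizer G v)) ∧
    Infinite ↥(cen r ⊓ stabilizer G u) ∧ Infinite ↥(cen r ⊓ stabilizer G v)

/-- The orders of the finite subgroups are bounded, there are finitely many conjugacy classes of
elements of finite order, and their centralisers are finitely generated. -/
def TameTorsion (G : Type) [Group G] : Prop :=
  (∃ B : ℕ, ∀ K : Subgroup G, Finite K → Nat.card K ≤ B) ∧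
  (∃ F : Set G, F.Finite ∧ ∀ g : G, IsOfFinOrder g → ∃ r ∈ F, IsConj g r) ∧
  ∀ r : G, IsOfFinOrder r → (cen r).FG

end Pool.Agent.Helper21.SG
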